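import Pool.Agent.X83.BF.Start

/-! The two-copy twirl of the random unitary butterfly on `Λ²` has real eigenvalues other than `1`
of size at least `(3/4)^K / 2`, which is much more than a constant times `1/n = 2^(-K)`. -/

open Pool.Agent.X83.BF

namespace Pool.Agent.Results.MP_93fab9_mp.LargeEigenvalue

/-- For every `K ≥ 5` the map `Φ_n` (`n = 2 ^ K`) on `End(Λ²ℂⁿ ⊗ Λ²ℂⁿ)` has a real eigenvalue in
`[(3/4)^K / 2, 1)`; and the statement of question Q1 is false. -/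
theorem result :
    (∀ K : ℕ, 5 ≤ K → ∃ lam : ℝ, 1 / 2 * (3 / 4 : ℝ) ^ K ≤ lam ∧ lam < 1 ∧
      ∃ Y : Matrix (Idx K) (Idx K) ℂ, Y ≠ 0 ∧ Anti Y ∧ Phi K Y = (lam : ℂ) • Y) ∧
    ¬ Q1 :=
  ⟨main, not_Q1⟩

end Pool.Agent.Results.MP_93fab9_mp.LargeEigenvalue
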